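import Pool.Agent.L7h27.SJ.Stm
import Pool.Agent.L7h27.SI.CLM

/-! Project SJ: CLM (by helper99). -/

set_option autoImplicit false

namespace Pool.Agent.L7h99.SJ

open Pool.Agent.L7h27.SI Pool.Agent.L7h27.SJ

section
variable {V : Type} [AddCommGroup V] {ι : Type} {N : ι → Type} [∀ i, Group (N i)]

theorem faith_manyA {A : ι → Prop} {ρ : ∀ i, N i →* AddMonoid.End V}
    (h : ManyA A (H99.faith ρ)) : ManyA A ρ := by
  intro w
  have h1 := h w
  rw [H99.faith_gd] at h1
  refine ⟨h1.1, fun i => ?_⟩
  have h2 := h1.2 i
  rwa [H99.faith_index] at h2

theorem faith_hypA {A : ι → Prop} {p : ι → ℕ} {ρ : ∀ i, N i →* AddMonoid.End V}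
    (h : HypA A p ρ) : HypA A p (H99.faith ρ) where
  finV := h.finV
  finI := h.finI
  finN := fun i => by
    haveI := h.finN i
    infer_instance
  prime := h.prime
  inj := h.inj
  odd := h.odd
  pg := fun i => (h.pg i).to_quotient _
  cop := h.cop
  ab := by
    intro i hA a b
    obtain ⟨g, rfl⟩ := QuotientGroup.mk_surjective a
    obtain ⟨g', rfl⟩ := QuotientGroup.mk_surjective b
    rw [← QuotientGroup.mk_mul, ← QuotientGroup.mk_mul, h.ab i hA g g']
  mers := h.mers
  comm := by
    intro i j hij a b
    obtain ⟨g, rfl⟩ := QuotientGroup.mk_surjective a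
    obtain ⟨g', rfl⟩ := QuotientGroup.mk_surjective b
    exact h.comm i j hij g g'

end

theorem s_CLM : Pool.Agent.L7h27.SJ.S_CLM := by
  intro hRED hFREE hZA hBLK n
  induction n using Nat.strong_induction_on with
  | _ n ih =>
    intro V _ ι N _ A p ρ hyp hnt hn
    apply faith_manyA
    have hyp' := faith_hypA hyp
    have hinj := H99.faith_inj ρ
    have hlt : ∀ m < Nat.card V, ClaimA m := by
      intro m hm
      exact ih m (by omega)
    by_cases hirr : Irr (H99.faith ρ)
    · by_cases hcyc : ∀ i, ¬ A i → IsCyclic (N i ⧸ (ρ i).ker)
      · apply hFREE V ι _ A p _ hyp' hnt hirr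
        intro i g hg v hv
        let U : AddSubgroup V :=
          { carrier := {v | H99.faith ρ i g v = v}
            zero_mem' := map_zero _
            add_mem' := by
              intro x y hx hy
              have hx' : H99.faith ρ i g x = x := hx
              have hy' : H99.faith ρ i g y = y := hy
              show H99.faith ρ i g (x + y) = x + y
              rw [map_add, hx', hy']
            neg_mem' := by
              intro x hx
              have hx' : H99.faith ρ i g x = x := hx
              show H99.faith ρ i g (-x) = -x
              rw [map_neg, hx'] }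
        have hU : Inv (H99.faith ρ) U := by
          intro j h u hu
          have hu' : H99.faith ρ i g u = u := hu
          show H99.faith ρ i g (H99.faith ρ j h u) = H99.faith ρ j h u
          have hcomm : H99.faith ρ i g * H99.faith ρ j h = H99.faith ρ j h * H99.faith ρ i g := by
            by_cases hij : i = j
            · subst hij
              have h1 : g * h = h * g := by
                by_cases hA : A i
                · exact hyp'.ab i hA g h
                obtain ⟨z, hz⟩ := (hcyc i hA).exists_generator
                obtain ⟨a, ha⟩ := Subgroup.mem_zpowers_iff.1 (hz g)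
                obtain ⟨b, hb⟩ := Subgroup.mem_zpowers_iff.1 (hz h)
                rw [← ha, ← hb, ← zpow_add, ← zpow_add, add_comm]
              rw [← map_mul, ← map_mul, h1]
            · exact hyp'.comm i j hij g h
          have h2 := congrArg (fun e : AddMonoid.End V => e u) hcomm
          have h3 : H99.faith ρ i g (H99.faith ρ j h u) = H99.faith ρ j h (H99.faith ρ i g u) := h2
          rw [h3, hu']
        rcases hirr U hU with h | h
        · have : v ∈ U := hv
          rw [h] at this
          exact this
        · exfalso
          apply hg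
          apply AddMonoidHom.ext
          intro x
          have : x ∈ U := by
            rw [h]
            exact AddSubgroup.mem_top x
          exact this
      · push Not at hcyc
        obtain ⟨i₀, hA₀, hi₀⟩ := hcyc
        haveI := hyp'.finN i₀
        obtain ⟨z, a, h1, h2, h3, h4, h5, h6⟩ :=
          hZA (p i₀) (hyp'.prime i₀) (hyp'.odd i₀) (N i₀ ⧸ (ρ i₀).ker) (hyp'.pg i₀) hi₀
        exact hBLK V ι _ A p _ hlt hyp' hnt hirr hinj i₀ z a hA₀ h1 h2 h3 h4 h5 h6
    · unfold Irr at hirr
      push Not at hirr
      obtain ⟨U, hU, hU1, hU2⟩ := hirr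
      exact hRED V ι _ A p _ hlt hyp' U hU hU1 hU2

end Pool.Agent.L7h99.SJ
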