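import Pool.Agent.L7h27.SJ.Stm
import Pool.Agent.L7h27.SI.FREE

/-! Project SJ: FREE (by helper99). -/

set_option autoImplicit false

namespace Pool.Agent.L7h99.SJ

open Finset Pool.Agent.L7h27.SI Pool.Agent.L7h27.SJ

theorem s_FREE : Pool.Agent.L7h27.SJ.S_FREE := by
  intro V _ ι N _ A p ρ hyp hnt hirr hfree w
  classical
  haveI := hyp.finV
  haveI := hyp.finI
  haveI := Fintype.ofFinite ι
  haveI := fun i => hyp.finN i
  set T : Finset ι := Finset.univ.filter (fun i => (ρ i).ker.index ≠ 1) with hT
  set m := Nat.card V with hm
  have hm2 : 2 ≤ m := Finite.one_lt_card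
  have hgd : m ≤ gd ρ w + T.card := by
    have h1 : {v : V | Good ρ w v}ᶜ ⊆ ((T.image (fun i => - w i) : Finset V) : Set V) := by
      intro v hv
      have hv' : ¬ Good ρ w v := hv
      unfold Good at hv'
      push Not at hv'
      obtain ⟨i, g, h1, h2⟩ := hv'
      have h3 := hfree i g h2 _ h1
      rw [Finset.coe_image]
      refine ⟨i, ?_, ?_⟩
      · rw [hT, Finset.mem_coe, Finset.mem_filter]
        refine ⟨Finset.mem_univ _, ?_⟩
        intro h4
        rw [Subgroup.index_eq_one] at h4
        apply h2
        have h5 : g ∈ (ρ i).ker := by
          rw [h4]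
          exact Subgroup.mem_top g
        exact h5
      · exact (eq_neg_of_add_eq_zero_left h3).symm
    have h2 : ({v : V | Good ρ w v}ᶜ).ncard ≤ T.card :=
      calc ({v : V | Good ρ w v}ᶜ).ncard ≤ ((T.image (fun i => - w i) : Finset V) : Set V).ncard :=
            Set.ncard_le_ncard h1 (Finset.finite_toSet _)
        _ = (T.image (fun i => - w i)).card := Set.ncard_coe_finset _
        _ ≤ T.card := Finset.card_image_le
    have h3 := Set.ncard_add_ncard_compl {v : V | Good ρ w v}
    have h4 : gd ρ w = {v : V | Good ρ w v}.ncard := rfl
    omega
  have hpow : ∀ i, ∃ a, (ρ i).ker.index = p i ^ a := by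
    intro i
    haveI : Fact (p i).Prime := ⟨hyp.prime i⟩
    exact (hyp.pg i).index _
  have hp3 : ∀ i, 3 ≤ p i := by
    intro i
    have h1 := (hyp.prime i).two_le
    have h2 := hyp.odd i
    omega
  have hT3 : ∀ i ∈ T, 3 ≤ (ρ i).ker.index := by
    intro i hi
    rw [hT, Finset.mem_filter] at hi
    obtain ⟨a, ha⟩ := hpow i
    have h0 : a ≠ 0 := by
      rintro rfl
      exact hi.2 (by rw [ha, pow_zero])
    rw [ha]
    calc 3 ≤ p i := hp3 i
      _ = p i ^ 1 := (pow_one _).symm
      _ ≤ p i ^ a := Nat.pow_le_pow_right (by have := hp3 i; omega) (by omega)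
  have hT1 : ∀ i, i ∉ T → (ρ i).ker.index = 1 := by
    intro i hi
    by_contra h
    exact hi (by rw [hT, Finset.mem_filter]; exact ⟨Finset.mem_univ _, h⟩)
  have hdvd : ∏ i ∈ T, (ρ i).ker.index ∣ m - 1 := by
    apply Finset.prod_dvd_of_isRelPrime
    · intro i _ j _ hij
      obtain ⟨a, ha⟩ := hpow i
      obtain ⟨b, hb⟩ := hpow j
      show IsRelPrime _ _
      rw [← Nat.coprime_iff_isRelPrime]
      show Nat.Coprime (ρ i).ker.index (ρ j).ker.index
      rw [ha, hb]
      apply Nat.Coprime.pow
      exact (Nat.coprime_primes (hyp.prime i) (hyp.prime j)).2 (fun h => hij (hyp.inj h))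
    · intro i _
      exact Pool.Agent.L7h27.SI.H99.index_dvd (ρ i) (hfree i)
  have hle : ∏ i ∈ T, (ρ i).ker.index ≤ m - 1 := Nat.le_of_dvd (by omega) hdvd
  -- the main inequality
  have main : 2 + T.card ≤ m ∧ ∀ i, (ρ i).ker.index + T.card ≤ m ∧
      (¬ A i → 2 * (ρ i).ker.index + T.card ≤ m) := by
    rcases Nat.lt_or_ge T.card 2 with hk | hk
    · rcases Nat.lt_or_ge T.card 1 with hk0 | hk1
      · have hT0 : T = ∅ := Finset.card_eq_zero.1 (by omega)
        refine ⟨by omega, fun i => ?_⟩
        rw [hT1 i (by rw [hT0]; exact Finset.notMem_empty i)]
        exact ⟨by omega, fun _ => by omega⟩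
      · have hk1' : T.card = 1 := by omega
        obtain ⟨i₀, hi₀⟩ := Finset.card_eq_one.1 hk1'
        have hmem : i₀ ∈ T := by rw [hi₀]; exact Finset.mem_singleton_self _
        have h3 := hT3 i₀ hmem
        rw [hi₀, Finset.prod_singleton] at hdvd
        obtain ⟨c, hc⟩ := hdvd
        have hc0' : 1 ≤ c := by
          rcases Nat.eq_zero_or_pos c with h | h
          · rw [h] at hc
            omega
          · exact h
        have hle1 : (ρ i₀).ker.index ≤ m - 1 := by
          rw [hc]
          exact Nat.le_mul_of_pos_right _ hc0'
        have hc1 : ¬ A i₀ → 2 ≤ c := by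
          intro hA
          by_contra hcon
          have hc0 : c ≠ 0 := by
            rintro rfl
            omega
          have hc1 : c = 1 := by omega
          rw [hc1, mul_one] at hc
          obtain ⟨a, ha⟩ := hpow i₀
          have ha0 : 1 ≤ a := by
            by_contra h
            have : a = 0 := by omega
            rw [this, pow_zero] at ha
            omega
          have hodd : Odd (p i₀ ^ a) := ((hyp.prime i₀).odd_of_ne_two (hyp.odd i₀)).pow
          have heven : 2 ∣ m := by
            obtain ⟨q, hq⟩ := hodd
            omega
          -- the two-torsion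
          let U : AddSubgroup V :=
            { carrier := {v | v + v = 0}
              zero_mem' := by simp
              add_mem' := by
                intro x y hx hy
                have hx' : x + x = 0 := hx
                have hy' : y + y = 0 := hy
                show x + y + (x + y) = 0
                calc x + y + (x + y) = (x + x) + (y + y) := by abel
                  _ = 0 := by rw [hx', hy', add_zero]
              neg_mem' := by
                intro x hx
                have hx' : x + x = 0 := hx
                show -x + -x = 0
                calc -x + -x = -(x + x) := by abel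
                  _ = 0 := by rw [hx', neg_zero] }
          have hUinv : Inv ρ U := by
            intro i g u hu
            have hu' : u + u = 0 := hu
            show ρ i g u + ρ i g u = 0
            rw [← map_add, hu', map_zero]
          obtain ⟨x, hx⟩ := exists_prime_addOrderOf_dvd_card' (G := V) 2 (by rw [← hm]; exact heven)
          have hx2 : x + x = 0 := by
            have h1 := addOrderOf_nsmul_eq_zero x
            rw [hx, two_nsmul] at h1
            exact h1
          have hx0 : x ≠ 0 := by
            rintro rfl
            rw [addOrderOf_zero] at hx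
            omega
          have hU : U = ⊤ := by
            rcases hirr U hUinv with h | h
            · exfalso
              apply hx0
              have : x ∈ U := hx2
              rw [h] at this
              exact this
            · exact h
          have hpg : IsPGroup 2 (Multiplicative V) := by
            intro g
            refine ⟨1, ?_⟩
            have h1 : Multiplicative.toAdd g ∈ U := by
              rw [hU]
              exact AddSubgroup.mem_top _
            have h2 : Multiplicative.toAdd g + Multiplicative.toAdd g = 0 := h1
            rw [pow_one, pow_two]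
            exact h2
          haveI : Fact (Nat.Prime 2) := ⟨Nat.prime_two⟩
          obtain ⟨b, hb⟩ := IsPGroup.iff_card.1 hpg
          have hb' : m = 2 ^ b := hb
          apply hyp.mers i₀ hA a b ha0
          · rw [← hm, hb']
          · rw [← ha, ← hb']
            omega
        have h4 : ¬ A i₀ → 2 * (ρ i₀).ker.index ≤ m - 1 := by
          intro hA
          have hc2 := hc1 hA
          rw [hc]
          nlinarith
        refine ⟨by omega, fun i => ?_⟩
        by_cases hi : i = i₀
        · rw [hi]
          refine ⟨by omega, fun hA => ?_⟩
          have := h4 hA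
          omega
        · rw [hT1 i (by rw [hi₀, Finset.mem_singleton]; exact hi)]
          exact ⟨by omega, fun _ => by omega⟩
    · -- at least two
      have hbig : ∀ i ∈ T, (ρ i).ker.index * 3 ^ (T.card - 1) ≤ m - 1 := by
        intro i hi
        refine le_trans ?_ hle
        rw [← Finset.mul_prod_erase T _ hi]
        apply Nat.mul_le_mul_left
        rw [← Finset.card_erase_of_mem hi]
        exact Finset.pow_card_le_prod _ _ _ (fun j hj => hT3 j (Finset.mem_of_mem_erase hj))
      have h3k : ∀ k : ℕ, 1 ≤ k → k + 2 ≤ 3 ^ k := by
        intro k hk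
        induction k, hk using Nat.le_induction with
        | base => norm_num
        | succ k hk ih =>
          rw [pow_succ]
          omega
      have h3 := h3k (T.card - 1) (by omega)
      have hmain : ∀ i ∈ T, 2 * (ρ i).ker.index + T.card ≤ m := by
        intro i hi
        have h4 := hbig i hi
        have h5 := hT3 i hi
        have h6 : (ρ i).ker.index * ((T.card - 1) + 2) ≤ (ρ i).ker.index * 3 ^ (T.card - 1) :=
          Nat.mul_le_mul_left _ h3
        have h7 : (T.card - 1) ≤ (ρ i).ker.index * (T.card - 1) :=
          Nat.le_mul_of_pos_left _ (by omega)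
        have h8 : (ρ i).ker.index * ((T.card - 1) + 2) =
            (ρ i).ker.index * (T.card - 1) + 2 * (ρ i).ker.index := by ring
        omega
      obtain ⟨j, hj⟩ : T.Nonempty := Finset.card_pos.1 (by omega)
      have hj1 := hmain j hj
      have hj2 := hT3 j hj
      refine ⟨by omega, fun i => ?_⟩
      by_cases hi : i ∈ T
      · have := hmain i hi
        exact ⟨by omega, fun _ => by omega⟩
      · rw [hT1 i hi]
        exact ⟨by omega, fun _ => by omega⟩
  refine ⟨by have := main.1; omega, fun i => ⟨by have := (main.2 i).1; omega, fun hA => ?_⟩⟩
  have := (main.2 i).2 hA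
  omega

end Pool.Agent.L7h99.SJ
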